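import Pool.Agent.MP_3a8a48_gt.Eqc.Stm

section
/-! The difference as a function of the direction, and its average. -/

set_option autoImplicit false

namespace Pool.Agent.MP_3a8a48_gt.Eqc

open MeasureTheory Set
open scoped Pointwise RealInnerProductSpace

section

variable {m : ℕ} {d : ℤ} {f : Set (E m) → ℝ} {K : Set (E m)}

theorem hom_Av (hf : Good d f) (hK : CC K) (s : ℝ) (x : E m) (hs : 0 ≤ s) :
    delta (s • x) f K = s * delta x f K := by
  unfold delta
  rw [hf.aff K hK x s hs]
  ring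

theorem sub_Av (hf : Good d f) (hK : CC K) (a b : E m) :
    delta (a + b) f K ≤ delta a f K + delta b f K := by
  have h : Shadow (a - b) (1 / 2) (seg ((1 / 2 : ℝ) • (a + b))) (seg a) (seg b) := fun u hu => by
    obtain ⟨s, s1, s2, rfl⟩ := mem_seg.1 hu
    exact ⟨s / 2, -(s / 2), mem_seg.2 ⟨s, s1, s2, by module⟩, mem_seg.2 ⟨s, s1, s2, by module⟩,
      by ring⟩
  have h1 := hf.shadow _ _ (by norm_num) (by norm_num) _ _ _ ((cc_seg _).add hK)
    ((cc_seg _).add hK) ((cc_seg _).add hK) (h.add K)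
  have h2 := hom_Av hf hK (1 / 2) (a + b) (by norm_num)
  unfold delta at h2 ⊢
  rw [add_comm _ K, add_comm _ K, add_comm _ K] at h1
  linarith

theorem bd_Av (hf : Good d f) (hK : CC K) (z : E m) :
    delta z f K ≤ ‖z‖ * f (K + Metric.closedBall 0 1) := by
  obtain ⟨u, hu, e⟩ : ∃ u : E m, ‖u‖ ≤ 1 ∧ z = ‖z‖ • u := by
    rcases eq_or_ne z 0 with rfl | hz
    · exact ⟨0, by simp, by simp⟩
    · exact ⟨‖z‖⁻¹ • z, (norm_smul_inv_norm hz).le, by
        rw [smul_inv_smul₀ (norm_ne_zero_iff.2 hz)]⟩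
  have h1 := hom_Av hf hK ‖z‖ u (norm_nonneg z)
  rw [← e] at h1
  rw [h1]
  refine mul_le_mul_of_nonneg_left ?_ (norm_nonneg z)
  have h2 : seg u ⊆ Metric.closedBall 0 1 := fun x hx => by
    obtain ⟨s, s1, s2, rfl⟩ := mem_seg.1 hx
    rw [mem_closedBall_zero_iff, norm_smul, Real.norm_eq_abs]
    exact mul_le_one₀ (abs_le.2 ⟨s1, s2⟩) (norm_nonneg u) hu
  have h3 := hf.mono (hK.add (cc_seg u)) (hK.add (cc_closedBall 1)) (add_subset_add_left h2)
  unfold delta
  linarith [hf.nonneg K hK]

theorem lip_Av (hf : Good d f) (hK : CC K) (x y : E m) :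
    |delta x f K - delta y f K| ≤ ‖x - y‖ * f (K + Metric.closedBall 0 1) := by
  have h1 := sub_Av hf hK y (x - y)
  have h2 := sub_Av hf hK x (y - x)
  have h3 := bd_Av hf hK (x - y)
  have h4 := bd_Av hf hK (y - x)
  rw [add_sub_cancel] at h1 h2
  rw [norm_sub_rev] at h4
  exact abs_le.2 ⟨by linarith, by linarith⟩

theorem cont_Av (hf : Good d f) (hK : CC K) : Continuous fun x : E m => delta x f K :=
  (LipschitzWith.of_dist_le_mul (K := ⟨_, hf.nonneg _ (hK.add (cc_closedBall 1))⟩) fun x y => by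
    rw [Real.dist_eq, dist_eq_norm, mul_comm]
    exact lip_Av hf hK x y).continuous

theorem int_Av (hf : Good d f) (hK : CC K) :
    Integrable (fun x : E m => delta x f K) (volume.restrict (Metric.closedBall (0 : E m) 1)) :=
  (cont_Av hf hK).continuousOn.integrableOn_compact (isCompact_closedBall 0 1)

theorem good_Av (hf : Good d f) : Good (d - 1) (av f) := by
  refine ⟨fun K hK => integral_nonneg fun x => (hf.delta x).nonneg K hK, fun K hK s hs => ?_,
    fun K hK v t ht => ?_, fun e θ h0 h1 U X Y hU hX hY h => ?_⟩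
  · unfold av
    rw [← integral_const_mul]
    exact integral_congr_ae (.of_forall fun x => (hf.delta x).hom K hK s hs)
  · unfold av
    have i1 := int_Av hf hK
    have i2 := int_Av hf (hK.add (cc_seg v))
    rw [← integral_sub i2 i1, ← integral_const_mul]
    exact (integral_congr_ae (.of_forall fun x => (hf.delta x).aff K hK v t ht)).trans
      (integral_add i1 ((i2.sub i1).const_mul t))
  · unfold av
    have i1 := (int_Av hf hX).const_mul θ
    have i2 := (int_Av hf hY).const_mul (1 - θ)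
    rw [← integral_const_mul, ← integral_const_mul, ← integral_add i1 i2]
    exact integral_mono (int_Av hf hU) (i1.add i2) fun x =>
      (hf.delta x).shadow e θ h0 h1 U X Y hU hX hY h

end

theorem sAv : SAv := fun _ _ _ hf =>
  ⟨fun _ hK => hom_Av hf hK, fun _ hK => lip_Av hf hK, fun _ hK => cont_Av hf hK, good_Av hf⟩

end Pool.Agent.MP_3a8a48_gt.Eqc

end

section
set_option autoImplicit false

namespace Pool.Agent.MP_3a8a48_gt.Eqc

open MeasureTheory Set
open scoped Pointwise RealInnerProductSpace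

theorem sub_Zon {m : ℕ} {ι : Type} (s : Finset ι) (w : ι → E m) (L : Set (E m)) (h : ℝ) :
    L ⊆ L + h • ∑ i ∈ s, seg (w i) := by
  classical
  induction s using Finset.induction_on with
  | empty => simp
  | insert j S hj ih =>
    rw [Finset.sum_insert hj, smul_add, smul_seg, add_comm (seg _), ← add_assoc]
    exact ih.trans (subset_add_seg _ _)

theorem sZon : SZon := by
  intro m ι s w d f hf L hL h h0
  classical
  induction s using Finset.induction_on with
  | empty => simp
  | insert j S hj ih =>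
    have h1 := sub_Zon S w L h
    have hc := hL.add ((cc_sum_seg S w).smul h)
    rw [Finset.sum_insert hj, Finset.sum_insert hj, Finset.sum_insert hj, smul_add, smul_seg,
      add_comm (seg _), ← add_assoc]
    generalize L + h • ∑ i ∈ S, seg (w i) = M at ih h1 hc ⊢
    have hc' := hc.add (cc_seg (h • w j))
    have h2 : f (M + seg (h • w j)) = f M + h * delta (w j) f M := hf.aff M hc (w j) h h0
    have h3 := mul_le_mul_of_nonneg_left ((hf.delta (w j)).mono hL hc h1) h0
    have h4 := fun i => (hf.delta (w i)).mono hc hc' (subset_add_seg M (h • w j))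
    have h5 := mul_le_mul_of_nonneg_left (h4 j) h0
    have h6 := mul_le_mul_of_nonneg_left (Finset.sum_le_sum (s := S) fun i _ => h4 i) h0
    constructor <;> linarith [ih.1, ih.2]

theorem apx_Zon {m : ℕ} {ε : ℝ} (hε : 0 < ε) : ∃ (s : Finset (E m)) (w : E m → E m),
    ∀ (N : E m → ℝ) (Λ : ℝ), 0 ≤ Λ → (∀ (r : ℝ) (x : E m), 0 ≤ r → N (r • x) = r * N x) →
      (∀ x y, |N x - N y| ≤ ‖x - y‖ * Λ) →
      |∑ i ∈ s, N (w i) - ∫ x in Metric.closedBall (0 : E m) 1, N x| ≤ ε * Λ := by
  set μ : Measure (E m) := volume.restrict (Metric.closedBall (0 : E m) 1) with hμ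
  have hid : Integrable (fun x : E m => x) μ :=
    continuous_id.continuousOn.integrableOn_compact (isCompact_closedBall 0 1)
  obtain ⟨φ, h1, h2⟩ := (memLp_one_iff_integrable.2 hid).exists_simpleFunc_eLpNorm_sub_lt
    ENNReal.one_ne_top (ε := ENNReal.ofReal ε) (by simpa using hε)
  have hφ : Integrable φ μ := memLp_one_iff_integrable.1 h2
  have hsub : Integrable (fun x : E m => x - φ x) μ := hid.sub hφ
  have h3 : ∫ x, ‖x - φ x‖ ∂μ ≤ ε := by
    rw [eLpNorm_one_eq_lintegral_enorm] at h1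
    rw [integral_norm_eq_lintegral_enorm hsub.aestronglyMeasurable]
    exact ENNReal.toReal_le_of_le_ofReal hε.le h1.le
  refine ⟨φ.range, fun y => μ.real (φ ⁻¹' {y}) • y, fun N Λ hΛ hN hL => ?_⟩
  have N0 : N 0 = 0 := by simpa using hN 0 0 le_rfl
  have hc : Continuous N := (LipschitzWith.of_dist_le_mul (K := ⟨Λ, hΛ⟩) fun x y => by
    rw [Real.dist_eq, dist_eq_norm, mul_comm]
    exact hL x y).continuous
  have hg : Integrable (fun x => N (φ x)) μ := (hφ.norm.mul_const Λ).mono'
    (hc.comp_aestronglyMeasurable hφ.aestronglyMeasurable)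
    (Filter.Eventually.of_forall fun x => by simpa [N0] using hL (φ x) 0)
  have h4 : ∑ i ∈ φ.range, N (μ.real (φ ⁻¹' {i}) • i) = ∫ x, N (φ x) ∂μ := by
    have a1 := φ.map_integral N hφ N0
    have a2 := (φ.map N).integral_eq_integral (μ := μ) hg
    rw [a1] at a2
    refine Eq.trans ?_ a2
    refine Finset.sum_congr rfl fun i _ => ?_
    rw [hN _ _ measureReal_nonneg, smul_eq_mul]
  have hi : Integrable N μ := hc.continuousOn.integrableOn_compact (isCompact_closedBall 0 1)
  rw [h4, ← integral_sub hg hi]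
  calc |∫ x, N (φ x) - N x ∂μ| ≤ ∫ x, ‖x - φ x‖ * Λ ∂μ := by
        rw [← Real.norm_eq_abs]
        refine norm_integral_le_of_norm_le (hsub.norm.mul_const _)
          (Filter.Eventually.of_forall fun x => ?_)
        rw [Real.norm_eq_abs, abs_sub_comm]
        exact hL _ _
    _ = (∫ x, ‖x - φ x‖ ∂μ) * Λ := integral_mul_const _ _
    _ ≤ ε * Λ := mul_le_mul_of_nonneg_right h3 hΛ

theorem sApx : SApx := by
  intro m hm
  have : Nonempty (Fin m) := ⟨⟨0, hm⟩⟩
  obtain ⟨c, hc, h⟩ := exists_ballInt (E := E m)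
  refine ⟨c, hc, fun ε hε => ?_⟩
  obtain ⟨s, w, hw⟩ := apx_Zon (m := m) (lt_min hε (mul_pos hc hε))
  have key : ∀ u : E m, |∑ i ∈ s, |⟪u, w i⟫| - c * ‖u‖| ≤ c * ε * ‖u‖ := fun u => by
    rw [← h u]
    refine (hw (fun x => |⟪u, x⟫|) ‖u‖ (norm_nonneg u) (fun r x hr => ?_) fun x y => ?_).trans
      (mul_le_mul_of_nonneg_right (min_le_right _ _) (norm_nonneg u))
    · rw [inner_smul_right, abs_mul, abs_of_nonneg hr]
    · refine (abs_abs_sub_abs_le_abs_sub _ _).trans ?_
      rw [← inner_sub_right, mul_comm]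
      exact abs_real_inner_le_norm _ _
  refine ⟨s, w, ball_subset_sum_seg _ _ fun u => ?_,
    sum_seg_subset_ball _ _ (by positivity) fun u => ?_, fun N Λ hΛ hN hL =>
      (hw N Λ hΛ hN hL).trans (mul_le_mul_of_nonneg_right (min_le_left _ _) hΛ)⟩
  · linarith [(abs_le.1 (key u)).1]
  · linarith [(abs_le.1 (key u)).2]

end Pool.Agent.MP_3a8a48_gt.Eqc

end

section
set_option autoImplicit false

namespace Pool.Agent.MP_3a8a48_gt.Eqc

open MeasureTheory Set
open scoped Pointwise RealInnerProductSpace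

theorem real_St {F G P : ℝ → ℝ} (hP : Continuous P) (hG : ∀ t, HasDerivAt G (P t) t)
    (h0 : F 0 = G 0) (h : ∀ t h : ℝ, 0 ≤ t → 0 ≤ h →
      h * P t ≤ F (t + h) - F t ∧ F (t + h) - F t ≤ h * P (t + h)) {t : ℝ} (ht : 0 ≤ t) :
    F t = G t := by
  have hF : ∀ x, 0 ≤ x → HasDerivWithinAt F (P x) (Ici 0) x := fun x hx => by
    rw [hasDerivWithinAt_iff_isLittleO, Asymptotics.isLittleO_iff]
    intro c hc
    filter_upwards [self_mem_nhdsWithin, nhdsWithin_le_nhds
      (Metric.tendsto_nhds.1 (hP.tendsto x) c hc)] with y hy e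
    have e := abs_lt.1 (show |P y - P x| < c from e)
    rw [Real.norm_eq_abs, Real.norm_eq_abs, smul_eq_mul, abs_le]
    rcases le_total x y with a | a
    · have := h x (y - x) hx (sub_nonneg.2 a)
      rw [add_sub_cancel] at this
      rw [abs_of_nonneg (sub_nonneg.2 a)]
      constructor <;> nlinarith [this.1, this.2]
    · have := h y (x - y) hy (sub_nonneg.2 a)
      rw [add_sub_cancel] at this
      rw [abs_of_nonpos (sub_nonpos.2 a)]
      constructor <;> nlinarith [this.1, this.2]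
  exact eq_of_has_deriv_right_eq (a := 0) (b := t)
    (fun x hx => (hF x hx.1).mono (Ici_subset_Ici.2 hx.1)) (fun x _ => (hG x).hasDerivWithinAt)
    (fun x hx => ((hF x hx.1).continuousWithinAt).mono Icc_subset_Ici_self)
    (fun x _ => (hG x).continuousAt.continuousWithinAt) h0 t ⟨ht, le_rfl⟩

theorem deriv_St (a : ℕ → ℝ) (d : ℕ) (t : ℝ) :
    HasDerivAt (fun t : ℝ => ∑ k ∈ Finset.range (d + 1), a k / (k.factorial : ℝ) * t ^ k)
      (∑ k ∈ Finset.range d, a (k + 1) / (k.factorial : ℝ) * t ^ k) t := by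
  simp only [Finset.sum_range_succ', pow_zero]
  refine HasDerivAt.add_const _ (HasDerivAt.fun_sum fun k _ => ?_)
  refine ((hasDerivAt_pow (k + 1) t).const_mul _).congr_deriv ?_
  rw [Nat.factorial_succ, Nat.add_sub_cancel]
  push_cast
  field_simp

theorem sSt (hA : SAv) (hZ : SZon) (hX : SApx) : SSt := by
  intro m hm
  obtain ⟨c, hc, hX⟩ := hX m hm
  refine ⟨c, hc, fun d => ?_⟩
  induction d with
  | zero =>
    exact fun f hf K hK t _ => (by simpa using hf : Good (-1) f).eq_zero
      (hK.add ((cc_closedBall c).smul t))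
  | succ d ih =>
    intro f hf K hK t ht
    obtain ⟨a1, a2, -, a4⟩ := hA m _ f hf
    set B := Metric.closedBall (0 : E m) c with hB
    have cB : CC B := cc_closedBall c
    have cA : ∀ s : ℝ, CC (K + s • B) := fun s => hK.add (cB.smul s)
    have sB : ∀ s r : ℝ, 0 ≤ s → 0 ≤ r →
        s • Metric.closedBall (0 : E m) (c * r) = (s * r) • B := fun s r hs hr => by
      rw [hB, smul_closedBall _ _ (by positivity), smul_closedBall _ _ hc.le, smul_zero, smul_zero,
        Real.norm_of_nonneg hs, Real.norm_of_nonneg (mul_nonneg hs hr)]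
      congr 1
      ring
    have aB : ∀ s r : ℝ, 0 ≤ s → 0 ≤ r → K + (s + r) • B = K + s • B + r • B := fun s r hs hr => by
      rw [cB.convex.add_smul hs hr, add_assoc]
    have mB : ∀ s r : ℝ, 0 ≤ s → s ≤ r → K + s • B ⊆ K + r • B := fun s r hs hr => by
      refine add_subset_add_left ?_
      rw [hB, smul_closedBall _ _ hc.le, smul_closedBall _ _ hc.le, smul_zero, smul_zero,
        Real.norm_of_nonneg hs, Real.norm_of_nonneg (hs.trans hr)]
      exact Metric.closedBall_subset_closedBall (by gcongr)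
    obtain ⟨P, hP, eP⟩ : ∃ P : ℝ → ℝ, P = (fun s => ∑ k ∈ Finset.range d,
        av^[k + 1] f K / (k.factorial : ℝ) * s ^ k) ∧ ∀ s, 0 ≤ s → av f (K + s • B) = P s :=
      ⟨_, rfl, fun s hs => ih (av f) (by convert a4 using 1; push_cast; ring) K hK s hs⟩
    have cP : Continuous P := by rw [hP]; fun_prop
    refine real_St (F := fun s => f (K + s • B)) (P := P)
      (G := fun t => ∑ k ∈ Finset.range (d + 1), av^[k] f K / (k.factorial : ℝ) * t ^ k) cP
      (fun s => by rw [hP]; exact deriv_St (fun k => av^[k] f K) d s) ?_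
      (fun s h hs hh => ?_) ht
    · simp [Finset.sum_range_succ', zero_smul_set (Metric.nonempty_closedBall.2 hc.le), hB]
    have apx : ∀ ε : ℝ, 0 < ε → ε < 1 → ∃ (Z : Set (E m)) (D : Set (E m) → ℝ), CC Z ∧
        (∀ a : ℝ, 0 ≤ a → (a * (1 - ε)) • B ⊆ a • Z ∧ a • Z ⊆ (a * (1 + ε)) • B) ∧
        (∀ L L', CC L → CC L' → L ⊆ L' → D L ≤ D L') ∧
        (∀ L, CC L → |D L - av f L| ≤ ε * f (L + Metric.closedBall 0 1)) ∧
        ∀ L, CC L → ∀ a : ℝ, 0 ≤ a →
          f L + a * D L ≤ f (L + a • Z) ∧ f (L + a • Z) ≤ f L + a * D (L + a • Z) := by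
      intro ε e0 e1
      obtain ⟨S, w, b1, b2, b3⟩ := hX ε e0
      refine ⟨∑ i ∈ S, seg (w i), fun L => ∑ i ∈ S, delta (w i) f L, cc_sum_seg S w,
        fun a ha => ?_, fun L L' c1 c2 c3 => Finset.sum_le_sum fun i _ =>
          (hf.delta _).mono c1 c2 c3, fun L hL => b3 (fun x => delta x f L) _
          (hf.nonneg _ (hL.add (cc_closedBall 1))) (fun r x hr => a1 L hL r x hr) (a2 L hL),
        fun L hL a ha => hZ m _ S w _ f hf L hL a ha⟩
      rw [← sB a _ ha (by linarith), ← sB a _ ha (by linarith)]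
      exact ⟨smul_set_mono b1, smul_set_mono b2⟩
    have ev : ∀ᶠ ε : ℝ in nhdsWithin 0 (Ioi 0), ε ∈ Ioo (0 : ℝ) (1 / 2) :=
      Ioo_mem_nhdsGT (by norm_num)
    constructor
    · have lim : ContinuousAt (fun ε : ℝ =>
          h / (1 + ε) * (P s - ε * f (K + s • B + Metric.closedBall 0 1))) 0 := by
        fun_prop (disch := norm_num)
      refine le_of_tendsto (x := nhdsWithin 0 (Ioi 0))
        (by simpa using lim.tendsto.mono_left nhdsWithin_le_nhds) (ev.mono fun ε ⟨e0, e1⟩ => ?_)
      obtain ⟨Z, D, cZ, z1, -, z3, z4⟩ := apx ε e0 (by linarith)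
      have ha : 0 ≤ h / (1 + ε) := by positivity
      have b1 := (z4 _ (cA s) _ ha).1
      have b2 := mul_le_mul_of_nonneg_left (abs_le.1 (z3 _ (cA s))).1 ha
      have b3 := (z1 _ ha).2
      rw [div_mul_cancel₀ _ (by positivity)] at b3
      have b4 := hf.mono ((cA s).add (cZ.smul _)) ((cA s).add (cB.smul _)) (add_subset_add_left b3)
      rw [← aB s h hs hh] at b4
      rw [eP s hs] at b2
      linarith
    · have lim : ContinuousAt (fun ε : ℝ => h / (1 - ε) * (P (s + h / (1 - ε) * (1 + ε)) +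
          ε * f (K + (s + 3 * h) • B + Metric.closedBall 0 1))) 0 := by
        fun_prop (disch := norm_num)
      refine ge_of_tendsto (x := nhdsWithin 0 (Ioi 0))
        (by simpa using lim.tendsto.mono_left nhdsWithin_le_nhds) (ev.mono fun ε ⟨e0, e1⟩ => ?_)
      obtain ⟨Z, D, cZ, z1, z2, z3, z4⟩ := apx ε e0 (by linarith)
      have h1 : 0 < 1 - ε := by linarith
      have ha : 0 ≤ h / (1 - ε) := by positivity
      have hr : 0 ≤ h / (1 - ε) * (1 + ε) := by positivity
      have b1 := (z4 _ (cA s) _ ha).2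
      obtain ⟨b3, b5⟩ := z1 _ ha
      rw [div_mul_cancel₀ _ h1.ne'] at b3
      have b4 := hf.mono ((cA s).add (cB.smul _)) ((cA s).add (cZ.smul _)) (add_subset_add_left b3)
      have b6 := z2 _ _ ((cA s).add (cZ.smul _)) ((cA s).add (cB.smul _)) (add_subset_add_left b5)
      rw [← aB s h hs hh] at b4
      rw [← aB s _ hs hr] at b6
      have b2 := (abs_le.1 (z3 _ (cA (s + h / (1 - ε) * (1 + ε))))).2
      rw [eP _ (by positivity)] at b2
      have b7 := hf.mono ((cA _).add (cc_closedBall 1)) ((cA _).add (cc_closedBall 1))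
        (add_subset_add_right (mB (s + h / (1 - ε) * (1 + ε)) (s + 3 * h) (by positivity) (by
          rw [div_mul_eq_mul_div, add_le_add_iff_left, div_le_iff₀ h1]
          nlinarith)))
      have b8 := mul_le_mul_of_nonneg_left b7 e0.le
      have b9 := mul_le_mul_of_nonneg_left (show D (K + s • B + (h / (1 - ε)) • Z) ≤
        P (s + h / (1 - ε) * (1 + ε)) + ε * f (K + (s + 3 * h) • B + Metric.closedBall 0 1) by
          linarith) ha
      linarith

end Pool.Agent.MP_3a8a48_gt.Eqc

end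

section
set_option autoImplicit false

namespace Pool.Agent.MP_3a8a48_gt.Eqc

open MeasureTheory Set
open scoped Pointwise RealInnerProductSpace

variable {m : ℕ}

theorem good_Strict {d : ℤ} {f : Set (E m) → ℝ} (hf : Good d f) (vs : List (E m)) :
    ∃ d', Good d' (deltas vs f) := by
  induction vs with
  | nil => exact ⟨d, hf⟩
  | cons v vs ih => exact ⟨_, ih.choose_spec.delta v⟩

theorem int_Strict {g : E m → ℝ} (hg : Continuous g) :
    IntegrableOn g (Metric.closedBall (0 : E m) 1) :=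
  hg.continuousOn.integrableOn_compact (isCompact_closedBall _ _)

theorem comm_Strict (hA : SAv) {d : ℤ} {f : Set (E m) → ℝ} (hf : Good d f) (vs : List (E m)) :
    ∀ L, CC L → deltas vs (av f) L = av (deltas vs f) L := by
  induction vs with
  | nil => exact fun _ _ => rfl
  | cons v vs ih =>
    intro L hL
    obtain ⟨d', hg⟩ := good_Strict hf vs
    have h1 := hL.add (cc_seg v)
    change deltas vs (av f) (L + seg v) - deltas vs (av f) L = _
    rw [ih _ h1, ih _ hL, av, av, ← integral_sub (int_Strict ((hA m d' _ hg).2.2.1 _ h1))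
      (int_Strict ((hA m d' _ hg).2.2.1 _ hL))]
    refine integral_congr_ae (Filter.Eventually.of_forall fun x => ?_)
    simp only [deltas, delta, add_right_comm L (seg v) (seg x)]
    ring

theorem one_Strict (hA : SAv) {d : ℤ} {g : Set (E m) → ℝ} (hg : Good d g) {e : E m}
    {K : Set (E m)} (hK : CC K) (h : dfc e K (av g) = 0) (x : E m) : dfc e K (delta x g) = 0 := by
  obtain ⟨a1, -, a3, -⟩ := hA m d g hg
  have k1 : CC (proj e '' K) := hK.image _
  have k2 : CC (half e '' K) := hK.image _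
  have hc : Continuous fun y => dfc e K (delta y g) :=
    ((a3 _ hK).add (a3 _ k1)).sub (continuous_const.mul (a3 _ k2))
  have h1 : ∫ y in Metric.closedBall (0 : E m) 1, dfc e K (delta y g) = 0 := by
    rw [← h]
    unfold dfc av
    rw [integral_sub (int_Strict ((a3 _ hK).fun_add (a3 _ k1)))
      (int_Strict ((a3 _ k2).const_mul 2)),
      integral_add (int_Strict (a3 _ hK)) (int_Strict (a3 _ k1)), integral_const_mul]
  rw [setIntegral_eq_zero_iff_of_nonneg_ae
    (Filter.Eventually.of_forall fun y => dfc_nonneg (hg.delta y) hK e) (int_Strict hc)] at h1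
  have h2 := Measure.eqOn_open_of_ae_eq
    (ae_restrict_of_ae_restrict_of_subset Metric.ball_subset_closedBall h1) Metric.isOpen_ball
    hc.continuousOn continuousOn_const
  have h3 : (0 : ℝ) < ‖x‖ + 1 := by positivity
  have h4 : dfc e K (delta ((‖x‖ + 1)⁻¹ • x) g) = 0 := h2 (by
    rw [mem_ball_zero_iff, norm_smul, norm_inv, Real.norm_of_nonneg h3.le, inv_mul_lt_iff₀ h3]
    linarith)
  unfold dfc at h4 ⊢
  rw [a1 _ hK _ _ (inv_pos.2 h3).le, a1 _ k1 _ _ (inv_pos.2 h3).le,
    a1 _ k2 _ _ (inv_pos.2 h3).le] at h4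
  refine mul_left_cancel₀ (inv_pos.2 h3).ne' ?_
  linarith

theorem sStrict (hA : SAv) : SStrict := by
  intro m k
  induction k with
  | zero =>
    intro d f e K _ _ h vs hv
    rw [List.length_eq_zero_iff.1 hv]
    exact h
  | succ k ih =>
    intro d f e K hf hK h vs hv
    obtain ⟨x, vs, rfl⟩ := List.exists_cons_of_length_eq_add_one hv
    obtain ⟨d', hg⟩ := good_Strict hf vs
    refine one_Strict hA hg hK ?_ x
    have h1 := ih _ _ e K (hA m d f hf).2.2.2 hK h vs (by simpa using hv)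
    unfold dfc at h1 ⊢
    rwa [comm_Strict hA hf vs _ hK, comm_Strict hA hf vs _ (hK.image _),
      comm_Strict hA hf vs _ (hK.image _)] at h1

end Pool.Agent.MP_3a8a48_gt.Eqc

end

section
/-! Equality forces all deficits to vanish. -/

set_option autoImplicit false

namespace Pool.Agent.MP_3a8a48_gt.Eqc

open MeasureTheory Set
open scoped Pointwise RealInnerProductSpace

theorem shadow_Half {m : ℕ} {ι : Type} [DecidableEq ι] {b : ι → E m} (hb : Orthonormal ℝ b)
    {S : Finset ι} {j : ι} (hj : j ∉ S) (ε : ℝ) (K : Set (E m)) :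
    Shadow (b j) (1 - ε) (shrink b (insert j S) (ε / 2) '' K) (shrink b S (ε / 2) '' K)
      (shrink b S (ε / 2) '' (half (b j) '' K)) := by
  rintro _ ⟨x, hx, rfl⟩
  refine ⟨ε / 2 * ⟪b j, x⟫, -((1 - ε) / 2 * ⟪b j, x⟫), ⟨x, hx, ?_⟩, ⟨_, ⟨x, hx, rfl⟩, ?_⟩,
    by ring⟩
  · rw [shrink_apply, shrink_apply, Finset.sum_insert hj, smul_add, mul_smul]
    abel
  · have h : ∑ i ∈ S, ⟪b i, half (b j) x⟫ • b i = ∑ i ∈ S, ⟪b i, x⟫ • b i := by
      refine Finset.sum_congr rfl fun i hi => ?_
      have hij : i ≠ j := fun h => hj (h ▸ hi)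
      rw [half_apply, inner_sub_right, inner_smul_right, inner_smul_right, hb.2 hij, mul_zero,
        mul_zero, sub_zero]
    rw [shrink_apply, shrink_apply, Finset.sum_insert hj, h, half_apply]
    module

theorem le_Half {m : ℕ} {d : ℤ} {f : Set (E m) → ℝ} (hf : Good d f) {ι : Type} [DecidableEq ι]
    {b : ι → E m} (hb : Orthonormal ℝ b) (S : Finset ι) :
    ∀ K, CC K → ∃ C : ℝ, 0 ≤ C ∧ ∀ ε : ℝ, 0 ≤ ε → ε ≤ 1 →
      f (shrink b S (ε / 2) '' K) ≤ (1 - S.card * ε) * f K + ε * ∑ i ∈ S, f (half (b i) '' K)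
        + C * ε ^ 2 := by
  induction S using Finset.induction_on with
  | empty =>
    intro K hK
    refine ⟨0, le_rfl, fun ε _ _ => ?_⟩
    have : shrink b ∅ (ε / 2) '' K = K := by
      ext x; simp [shrink_apply]
    simp [this]
  | insert j S hj ih =>
    intro K hK
    have hP := hK.image (half (b j))
    obtain ⟨C, hC, h1⟩ := ih K hK
    obtain ⟨C', hC', h2⟩ := ih _ hP
    have hA : 0 ≤ ∑ i ∈ S, f (half (b i) '' K) :=
      Finset.sum_nonneg fun i _ => hf.nonneg _ (hK.image _)
    have hA' : 0 ≤ ∑ i ∈ S, f (half (b i) '' (half (b j) '' K)) :=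
      Finset.sum_nonneg fun i _ => hf.nonneg _ (hP.image _)
    have hfK := hf.nonneg K hK
    have hfP := hf.nonneg _ hP
    have hS : (0 : ℝ) ≤ S.card := Nat.cast_nonneg _
    refine ⟨S.card * f K + C + ∑ i ∈ S, f (half (b i) '' (half (b j) '' K)) + C',
      add_nonneg (add_nonneg (add_nonneg (mul_nonneg hS hfK) hC) hA') hC', fun ε h0 hε => ?_⟩
    have h3 := hf.shadow (b j) (1 - ε) (by linarith) (by linarith) _ _ _ (hK.image _)
      (hK.image _) (hP.image _) (shadow_Half hb hj ε K)
    have h4 := h1 ε h0 hε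
    have h5 := h2 ε h0 hε
    rw [Finset.sum_insert hj, Finset.card_insert_of_notMem hj]
    push_cast
    exact shrink_arith hS hA hC hC' hfP h0 hε h3 h4 h5

theorem sHalf : SHalf := by
  intro m n f K hf hK he
  let b := EuclideanSpace.basisFun (Fin m) ℝ
  have hb : ∀ i, b i = ee i := fun i => EuclideanSpace.basisFun_apply _ _ i
  obtain ⟨C, hC, h⟩ := le_Half hf b.orthonormal Finset.univ K hK
  have hfK := hf.nonneg K hK
  have key : ∀ ε : ℝ, 0 < ε → ε < 1 →
      ((m : ℝ) - n / 2) * f K ≤ ∑ i, f (half (ee i) '' K) + C * ε := by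
    intro ε h0 h1
    have h2 := h ε h0.le h1.le
    have h3 : shrink b Finset.univ (ε / 2) '' K = (1 - ε / 2) • K := by
      rw [← image_smul]
      refine image_congr fun x _ => ?_
      rw [shrink_apply, b.sum_repr', sub_smul, one_smul]
    rw [h3, hf.hom K hK _ (by linarith), zpow_natCast, Finset.card_univ, Fintype.card_fin] at h2
    simp only [hb] at h2
    have h4 : 1 + (n : ℝ) * (-(ε / 2)) ≤ (1 + -(ε / 2)) ^ n := one_add_mul_le_pow (by linarith) n
    rw [← sub_eq_add_neg 1 (ε / 2)] at h4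
    have h5 := mul_le_mul_of_nonneg_right h4 hfK
    refine le_of_mul_le_mul_left ?_ h0
    nlinarith
  have main : ((m : ℝ) - n / 2) * f K ≤ ∑ i, f (half (ee i) '' K) := by
    have : Continuous fun ε : ℝ => ∑ i, f (half (ee i) '' K) + C * ε := by fun_prop
    have h2 := this.tendsto 0
    simp only [mul_zero, add_zero] at h2
    refine ge_of_tendsto (h2.mono_left (nhdsWithin_le_nhds (s := Ioi 0))) ?_
    filter_upwards [Ioo_mem_nhdsGT (zero_lt_one' ℝ)] with ε hε using key ε hε.1 hε.2
  have hs : ∑ i, dfc (ee i) K f = 0 := by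
    refine le_antisymm ?_ (Finset.sum_nonneg fun i _ => dfc_nonneg hf hK _)
    simp only [dfc, Finset.sum_sub_distrib, Finset.sum_add_distrib, ← Finset.mul_sum, ← he,
      Finset.sum_const, Finset.card_univ, Fintype.card_fin, nsmul_eq_mul]
    linarith
  exact fun i => (Finset.sum_eq_zero_iff_of_nonneg fun i _ => dfc_nonneg hf hK _).1 hs i
    (Finset.mem_univ i)

end Pool.Agent.MP_3a8a48_gt.Eqc

end

section
set_option autoImplicit false

namespace Pool.Agent.MP_3a8a48_gt.Eqc

open MeasureTheory Set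
open scoped Pointwise RealInnerProductSpace

theorem proj_One {m : ℕ} {L : Set (E m)} {e : E m} (hL : CC L) (he : ‖e‖ = 1) :
    vol (proj e '' L) = 0 := by
  have he0 : e ≠ 0 := by
    rintro rfl
    simp at he
  have hee : ⟪e, e⟫ = (1 : ℝ) := by rw [real_inner_self_eq_norm_sq, he, one_pow]
  have h : ∀ y, volume (fib e (proj e '' L) y) = 0 := by
    intro y
    refine measure_mono_null (t := {-⟪e, y⟫}) ?_ (measure_singleton _)
    rintro t ⟨l, -, hl⟩
    have := congrArg (fun z => ⟪e, z⟫) hl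
    simp only [proj_apply, inner_sub_right, inner_add_right, inner_smul_right, hee] at this
    rw [mem_singleton_iff]
    linarith
  unfold vol
  rw [volume_eq_lintegral_fib he0 (hL.image _).measurableSet]
  simp only [h, lintegral_zero, ENNReal.toReal_zero]

theorem halfpt_One {m : ℕ} {e : E m} (he : ‖e‖ = 1) (y : E m) (s : ℝ) :
    half e (y + s • e) = y + ((s - ⟪e, y⟫) / 2) • e := by
  have hee : ⟪e, e⟫ = (1 : ℝ) := by rw [real_inner_self_eq_norm_sq, he, one_pow]
  rw [half_apply, inner_add_right, inner_smul_right, hee]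
  module

theorem half_One {m : ℕ} {L : Set (E m)} {e : E m} (hL : CC L) (he : ‖e‖ = 1) :
    vol L ≤ 2 * vol (half e '' L) := by
  have he0 : e ≠ 0 := by
    rintro rfl
    simp at he
  have hH := hL.image (half e)
  have h : ∀ y, volume (fib e L y) ≤ ENNReal.ofReal 2 * volume (fib e (half e '' L) y) := by
    intro y
    rcases (fib e L y).eq_empty_or_nonempty with h | h
    · simp [h]
    obtain ⟨a, b, hab, hf⟩ := fib_eq_Icc he0 hL y h
    have hsub : Icc ((a - ⟪e, y⟫) / 2) ((b - ⟪e, y⟫) / 2) ⊆ fib e (half e '' L) y := by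
      intro t ht
      have h1 : 2 * t + ⟪e, y⟫ ∈ fib e L y := by
        rw [hf]
        constructor <;> linarith [ht.1, ht.2]
      refine ⟨_, h1, ?_⟩
      rw [halfpt_One he]
      congr 2
      ring
    refine le_trans (le_of_eq ?_) (mul_le_mul_right (measure_mono hsub) _)
    rw [hf, Real.volume_Icc, Real.volume_Icc, ← ENNReal.ofReal_mul (by norm_num)]
    congr 1
    ring
  have key : volume L ≤ ENNReal.ofReal 2 * volume (half e '' L) := by
    rw [volume_eq_lintegral_fib he0 hL.measurableSet, volume_eq_lintegral_fib he0 hH.measurableSet,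
      ← lintegral_const_mul _ (measurable_fib e hH.measurableSet)]
    exact lintegral_mono h
  have := ENNReal.toReal_mono (ENNReal.mul_ne_top ENNReal.ofReal_ne_top hH.volume_ne_top) key
  rwa [ENNReal.toReal_mul, ENNReal.toReal_ofReal (by norm_num)] at this

theorem fib_One {m : ℕ} {L : Set (E m)} {e w y : E m} {γ τ r : ℝ} (hL : CC L) (he : ‖e‖ = 1)
    (hw : ⟪e, w⟫ = 0) (hγ : 0 < γ) (hr : r < 0) (hz : y + τ • e ∈ L)
    (hq : y + τ • e + w + r • e ∈ L)
    (hc : ∀ μ : ℝ, -γ ≤ μ → μ ≤ 0 → y + τ • e + w + μ • e ∉ L) :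
    volume (fib e (half e '' L + seg (γ • e - w)) y) <
      ENNReal.ofReal (1 / 2) * volume (fib e (L + seg (γ • e - w)) y) +
        ENNReal.ofReal (1 - 1 / 2) * volume (fib e (proj e '' L + seg (γ • e - w)) y) := by
  have he0 : e ≠ 0 := by
    rintro rfl
    simp at he
  have hee : ⟪e, e⟫ = (1 : ℝ) := by rw [real_inner_self_eq_norm_sq, he, one_pow]
  have key : ∀ t ∈ fib e (half e '' L + seg (γ • e - w)) y, ∃ l ∈ L, ∃ k : ℝ, k ≤ 1 ∧
      l = y + (⟪e, l⟫ - ⟪e, y⟫) • e + k • w ∧
      ⟪e, l⟫ + k * γ - ⟪e, y⟫ ∈ fib e (L + seg (γ • e - w)) y ∧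
      k * γ - ⟪e, y⟫ ∈ fib e (proj e '' L + seg (γ • e - w)) y ∧
      t = ⟪e, l⟫ / 2 + k * γ - ⟪e, y⟫ := by
    rintro t ⟨_, ⟨l, hl, rfl⟩, x, hx, h⟩
    obtain ⟨k, hk1, hk2, hk⟩ := mem_seg.1 hx
    have h' : half e l + x = y + t • e := h
    have h1 := congrArg (fun z => ⟪e, z⟫) h'
    simp only [← hk, half_apply, inner_sub_right, inner_add_right, inner_smul_right, hee, hw] at h1
    have ht : t = ⟪e, l⟫ / 2 + k * γ - ⟪e, y⟫ := by linarith
    rw [half_apply, ← hk, ht] at h'
    refine ⟨l, hl, k, hk2, ?_, ⟨l, hl, x, hx, ?_⟩, ⟨_, ⟨l, hl, rfl⟩, x, hx, ?_⟩, ht⟩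
    · linear_combination (norm := module) h'
    · show l + x = _
      rw [← hk]
      linear_combination (norm := module) h'
    · show proj e l + x = _
      rw [← hk, proj_apply]
      linear_combination (norm := module) h'
  have hU0 : (τ - ⟪e, y⟫) / 2 ∈ fib e (half e '' L + seg (γ • e - w)) y :=
    subset_add_seg _ _ ⟨_, hz, halfpt_One he y τ⟩
  have hX0 : τ ∈ fib e (L + seg (γ • e - w)) y := subset_add_seg _ _ hz
  have hY0 : γ - ⟪e, y⟫ ∈ fib e (proj e '' L + seg (γ • e - w)) y := by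
    refine ⟨_, ⟨_, hq, rfl⟩, γ • e - w, mem_seg.2 ⟨1, by norm_num, le_rfl, one_smul _ _⟩, ?_⟩
    show proj e _ + _ = _
    simp only [proj_apply, inner_add_right, inner_smul_right, hee, hw]
    module
  obtain ⟨a1, b1, h1, hU⟩ := fib_eq_Icc he0 ((hL.image (half e)).add (cc_seg _)) y ⟨_, hU0⟩
  obtain ⟨a, b, h2, hX⟩ := fib_eq_Icc he0 (hL.add (cc_seg _)) y ⟨_, hX0⟩
  obtain ⟨c, d, h3, hY⟩ := fib_eq_Icc he0 ((hL.image (proj e)).add (cc_seg _)) y ⟨_, hY0⟩
  rw [hU, hX, hY] at key
  rw [hX] at hX0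
  rw [hY] at hY0
  have hlo : (a + c) / 2 ≤ a1 := by
    obtain ⟨l, -, k, -, -, s1, s2, ht⟩ := key a1 ⟨le_rfl, h1⟩
    linarith [s1.1, s2.1]
  have hhi : b1 < (b + d) / 2 := by
    by_contra hn
    obtain ⟨l, hl, k, hk, hlk, s1, s2, ht⟩ := key b1 ⟨h1, le_rfl⟩
    have e1 : γ ≤ k * γ := by linarith [s1.2, s2.2, hY0.2, not_lt.1 hn]
    have e2 : k = 1 := le_antisymm hk (by nlinarith)
    obtain ⟨μ, hμ⟩ : ∃ μ : ℝ, μ = ⟪e, l⟫ - ⟪e, y⟫ - τ := ⟨_, rfl⟩
    have e3 : -γ ≤ μ := by
      rw [e2] at s1 s2 ht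
      linarith [s1.2, s2.2, hX0.2, not_lt.1 hn]
    have e4 : y + τ • e + w + μ • e ∈ L := by
      have : y + τ • e + w + μ • e = l := by
        rw [hlk, e2, show ⟪e, l⟫ - ⟪e, y⟫ = μ + τ by linarith]
        module
      rwa [this]
    rcases le_total μ 0 with e5 | e5
    · exact hc μ e3 e5 e4
    · have hd : 0 < μ - r := by linarith
      have := hL.convex hq e4 (a := μ / (μ - r)) (b := -r / (μ - r)) (by positivity)
        (div_nonneg (by linarith) hd.le) (by field_simp; ring)
      refine hc 0 (by linarith) le_rfl ?_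
      convert this using 1
      have e6 : μ / (μ - r) = 1 - -r / (μ - r) := by field_simp; ring
      have e7 : -r / (μ - r) * (μ - r) = -r := div_mul_cancel₀ _ hd.ne'
      rw [e6]
      linear_combination (norm := module) (-e7) • e
  rw [hU, hX, hY, Real.volume_Icc, Real.volume_Icc, Real.volume_Icc,
    ← ENNReal.ofReal_mul (by norm_num), ← ENNReal.ofReal_mul (by norm_num),
    ← ENNReal.ofReal_add (by linarith) (by linarith), ENNReal.ofReal_lt_ofReal_iff (by linarith)]
  linarith

theorem strict_One {m : ℕ} {L : Set (E m)} {e w p : E m} {ρ r : ℝ} (hL : CC L) (he : ‖e‖ = 1)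
    (hw : ⟪e, w⟫ = 0) (hρ : 0 < ρ) (hr : r < 0) (hp : Metric.ball p ρ ⊆ L)
    (hq : Metric.ball (p + w + r • e) ρ ⊆ L) (hc : Metric.ball (p + w) (2 * ρ) ⊆ Lᶜ) :
    0 < dfc e L (delta ((ρ / 2) • e - w) vol) := by
  have he0 : e ≠ 0 := by
    rintro rfl
    simp at he
  have hee : ⟪e, e⟫ = (1 : ℝ) := by rw [real_inner_self_eq_norm_sq, he, one_pow]
  have hU := (hL.image (half e)).add (cc_seg ((ρ / 2) • e - w))
  have hX := hL.add (cc_seg ((ρ / 2) • e - w))
  have hY := (hL.image (proj e)).add (cc_seg ((ρ / 2) • e - w))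
  have hsub : Metric.ball (p - (⟪e, p⟫ - 1 / 2) • e) (min ρ (1 / 2)) ⊆ slab e := by
    intro y hy
    have h1 : |⟪e, y - (p - (⟪e, p⟫ - 1 / 2) • e)⟫| < 1 / 2 := by
      refine (abs_real_inner_le_norm _ _).trans_lt ?_
      rw [he, one_mul]
      exact (mem_ball_iff_norm.1 hy).trans_le (min_le_right _ _)
    simp only [inner_sub_right, inner_smul_right, hee] at h1
    have h2 := abs_lt.1 h1
    show ⟪y, e⟫ ∈ Ico (0 : ℝ) (‖e‖ ^ 2)
    rw [real_inner_comm, he]
    constructor <;> linarith [h2.1, h2.2]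
  have key : volume (half e '' L + seg ((ρ / 2) • e - w)) <
      ENNReal.ofReal (1 / 2) * volume (L + seg ((ρ / 2) • e - w)) +
        ENNReal.ofReal (1 - 1 / 2) * volume (proj e '' L + seg ((ρ / 2) • e - w)) := by
    have hfin := hU.volume_ne_top
    rw [volume_eq_lintegral_fib he0 hU.measurableSet] at hfin
    rw [volume_eq_lintegral_fib he0 hU.measurableSet, volume_eq_lintegral_fib he0 hX.measurableSet,
      volume_eq_lintegral_fib he0 hY.measurableSet,
      ← lintegral_const_mul _ (measurable_fib e hX.measurableSet),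
      ← lintegral_const_mul _ (measurable_fib e hY.measurableSet),
      ← lintegral_add_left ((measurable_fib e hX.measurableSet).const_mul _)]
    refine lintegral_strict_mono_of_ae_le_of_ae_lt_on
      (((measurable_fib e hX.measurableSet).const_mul _).add
        ((measurable_fib e hY.measurableSet).const_mul _)).aemeasurable hfin
      (Filter.Eventually.of_forall fun y => volume_fib_shadow he0 (by norm_num) (by norm_num) hX hY
        ((shadow_half e L).add _) y)
      (s := Metric.ball (p - (⟪e, p⟫ - 1 / 2) • e) (min ρ (1 / 2))) ?_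
      (Filter.Eventually.of_forall fun y hy => ?_)
    · rw [Measure.restrict_apply Metric.isOpen_ball.measurableSet, inter_eq_left.2 hsub]
      exact (Metric.measure_ball_pos _ _ (lt_min hρ (by norm_num))).ne'
    · have h1 : ‖y + (⟪e, p⟫ - 1 / 2) • e - p‖ < ρ := by
        have : y + (⟪e, p⟫ - 1 / 2) • e - p = y - (p - (⟪e, p⟫ - 1 / 2) • e) := by abel
        rw [this]
        exact (mem_ball_iff_norm.1 hy).trans_le (min_le_left _ _)
      refine fib_One (τ := ⟪e, p⟫ - 1 / 2) hL he hw (by linarith) hr (hp (mem_ball_iff_norm.2 h1))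
        (hq (mem_ball_iff_norm.2 ?_)) fun μ m1 m2 => hc (mem_ball_iff_norm.2 ?_)
      · rwa [add_sub_add_right_eq_sub, add_sub_add_right_eq_sub]
      · have : y + (⟪e, p⟫ - 1 / 2) • e + w + μ • e - (p + w) =
            (y + (⟪e, p⟫ - 1 / 2) • e - p) + μ • e := by abel
        rw [this]
        refine (norm_add_le _ _).trans_lt ?_
        rw [norm_smul, he, Real.norm_eq_abs, abs_of_nonpos m2]
        linarith
  have a1 := ENNReal.mul_ne_top (ENNReal.ofReal_ne_top (r := 1 / 2)) hX.volume_ne_top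
  have a2 := ENNReal.mul_ne_top (ENNReal.ofReal_ne_top (r := 1 - 1 / 2)) hY.volume_ne_top
  have := ENNReal.toReal_strict_mono (ENNReal.add_ne_top.2 ⟨a1, a2⟩) key
  rw [ENNReal.toReal_add a1 a2, ENNReal.toReal_mul, ENNReal.toReal_mul,
    ENNReal.toReal_ofReal (by norm_num), ENNReal.toReal_ofReal (by norm_num)] at this
  have b1 := proj_One hL he
  have b2 := half_One hL he
  simp only [dfc, delta]
  simp only [vol] at b1 b2 ⊢
  linarith

theorem neg_One {m : ℕ} (L : Set (E m)) (e w : E m) (hL : CC L) (hi : (interior L).Nonempty)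
    (he : ‖e‖ = 1) (hw : ⟪e, w⟫ = 0) (h : ∀ γ s : ℝ, dfc e L (delta (γ • e - s • w) vol) = 0)
    (p : E m) (hp : p ∈ L) (r : ℝ) (hr : r < 0) (hq : p + w + r • e ∈ L) : p + w ∈ L := by
  by_contra hc
  obtain ⟨o, ho⟩ := hi
  have hop : IsOpen Lᶜ := hL.compact.isClosed.isOpen_compl
  have hcont : Continuous fun t : ℝ => p + w + t • (o - (p + w)) := by fun_prop
  have hev : ∀ᶠ t : ℝ in nhds 0, p + w + t • (o - (p + w)) ∈ Lᶜ :=
    hcont.continuousAt.eventually (hop.mem_nhds (by simpa using hc))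
  obtain ⟨ε, hε, hε0⟩ := ((hev.and (eventually_lt_nhds one_pos)).filter_mono
    (nhdsWithin_le_nhds (s := Ioi (0 : ℝ)))).and self_mem_nhdsWithin |>.exists
  have hε1 : 0 < ε := hε0
  have h1 := hL.convex.add_smul_sub_mem_interior hp ho ⟨hε1, hε.2.le⟩
  have h2 := hL.convex.add_smul_sub_mem_interior hq ho ⟨hε1, hε.2.le⟩
  have e1 : p + w + ε • (o - (p + w)) = p + ε • (o - p) + (1 - ε) • w := by module
  have e2 : p + w + r • e + ε • (o - (p + w + r • e)) =
      p + ε • (o - p) + (1 - ε) • w + ((1 - ε) * r) • e := by module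
  have h3 := hε.1
  rw [e1] at h3
  rw [e2] at h2
  obtain ⟨r1, s1, t1⟩ := Metric.mem_nhds_iff.1 (mem_interior_iff_mem_nhds.1 h1)
  obtain ⟨r2, s2, t2⟩ := Metric.mem_nhds_iff.1 (mem_interior_iff_mem_nhds.1 h2)
  obtain ⟨r3, s3, t3⟩ := Metric.mem_nhds_iff.1 (hop.mem_nhds h3)
  have := strict_One (ρ := min (min r1 r2) (r3 / 2)) hL he
    (by rw [inner_smul_right, hw, mul_zero]) (by positivity)
    (mul_neg_of_pos_of_neg (by linarith [hε.2]) hr)
    ((Metric.ball_subset_ball ((min_le_left _ _).trans (min_le_left _ _))).trans t1)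
    ((Metric.ball_subset_ball ((min_le_left _ _).trans (min_le_right _ _))).trans t2)
    ((Metric.ball_subset_ball (by linarith [min_le_right (min r1 r2) (r3 / 2)])).trans t3)
  exact this.ne' (h _ _)

theorem sOne : SOne := by
  intro m L e w hL hi he hw h p hp r hq
  rcases lt_trichotomy r 0 with hr | rfl | hr
  · exact neg_One L e w hL hi he hw h p hp r hr hq
  · simpa using hq
  · have e1 : proj (-e) = proj e := by
      ext1 x
      simp [proj_apply]
    have e2 : half (-e) = half e := by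
      ext1 x
      simp [half_apply]
    refine neg_One L (-e) w hL hi (by rwa [norm_neg]) (by rw [inner_neg_left, hw, neg_zero])
      (fun γ s => ?_) p hp (-r) (by linarith) (by rwa [neg_smul_neg])
    have := h (-γ) s
    rw [neg_smul, ← smul_neg] at this
    unfold dfc at this ⊢
    rwa [e1, e2]

end Pool.Agent.MP_3a8a48_gt.Eqc

end

section
/-! Reduction of iterated differences to one difference. -/

set_option autoImplicit false

namespace Pool.Agent.MP_3a8a48_gt.Eqc

open MeasureTheory Set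
open scoped Pointwise RealInnerProductSpace

section aux

variable {m : ℕ}

theorem fibvol_Red {v : E m} (hv : ‖v‖ = 1) {L : Set (E m)} (hL : CC L) (y : E m) :
    volume (fib v (L + seg v) y) =
      volume (fib v L y) + volume (fib v (proj v '' L + seg v) y) := by
  have hv0 : v ≠ 0 := by
    rintro rfl
    simp at hv
  have hvv : ⟪v, v⟫ = 1 := by rw [real_inner_self_eq_norm_sq, hv]; norm_num
  have h1 := fib_add_seg (v := v) L y zero_le_one
  have h2 := fib_add_seg (v := v) (proj v '' L) y zero_le_one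
  rw [one_smul] at h1 h2
  rw [h1, h2]
  rcases (fib v L y).eq_empty_or_nonempty with he | hne
  · have h3 : fib v (proj v '' L) y = ∅ := by
      rw [eq_empty_iff_forall_notMem]
      rintro t ⟨x, hx, h⟩
      have : t + ⟪v, x⟫ ∈ fib v L y := by
        have h4 : y + (t + ⟪v, x⟫) • v = x := by
          rw [add_smul, ← add_assoc, ← h, proj_apply]
          abel
        show y + (t + ⟪v, x⟫) • v ∈ L
        rwa [h4]
      rw [he] at this
      exact this
    rw [he, h3]
    simp
  · obtain ⟨a, b, hab, h3⟩ := fib_eq_Icc hv0 hL y hne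
    have h4 : fib v (proj v '' L) y = Icc (-⟪v, y⟫) (-⟪v, y⟫) := by
      rw [Icc_self]
      ext t
      rw [mem_singleton_iff]
      constructor
      · rintro ⟨x, hx, h⟩
        have h5 := congrArg (fun z => ⟪v, z⟫) h
        simp only [proj_apply, inner_sub_right, inner_add_right, inner_smul_right, hvv] at h5
        linarith
      · rintro rfl
        obtain ⟨s, hs⟩ := hne
        refine ⟨y + s • v, hs, ?_⟩
        rw [proj_apply, inner_add_right, inner_smul_right, hvv]
        module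
    rw [h3, h4, Icc_add_Icc hab (by norm_num), Icc_add_Icc le_rfl (by norm_num), Real.volume_Icc,
      Real.volume_Icc, Real.volume_Icc, ← ENNReal.ofReal_add (by linarith) (by linarith)]
    congr 1
    ring

theorem delta_vol_Red {v : E m} (hv : ‖v‖ = 1) {L : Set (E m)} (hL : CC L) :
    delta v vol L = vol (proj v '' L + seg v) := by
  have hv0 : v ≠ 0 := by
    rintro rfl
    simp at hv
  have h1 := hL.add (cc_seg v)
  have h2 := (hL.image (proj v)).add (cc_seg v)
  have key : volume (L + seg v) = volume L + volume (proj v '' L + seg v) := by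
    rw [volume_eq_lintegral_fib hv0 h1.measurableSet, volume_eq_lintegral_fib hv0 hL.measurableSet,
      volume_eq_lintegral_fib hv0 h2.measurableSet,
      ← lintegral_add_left (measurable_fib v hL.measurableSet)]
    exact lintegral_congr fun y => fibvol_Red hv hL y
  simp only [delta, vol]
  rw [key, ENNReal.toReal_add hL.volume_ne_top h2.volume_ne_top]
  ring

/-- Iterated projection plus segment. -/
noncomputable def pp_Red : List (E m) → Set (E m) → Set (E m)
  | [], K => K
  | v :: vs, K => proj v '' pp_Red vs K + seg v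

theorem image_seg_Red (T : E m →L[ℝ] E m) {x : E m} (h : T x = x) : T '' seg x = seg x := by
  ext z
  simp only [mem_image, mem_seg]
  constructor
  · rintro ⟨_, ⟨s, h1, h2, rfl⟩, rfl⟩
    exact ⟨s, h1, h2, by rw [map_smul, h]⟩
  · rintro ⟨s, h1, h2, rfl⟩
    exact ⟨_, ⟨s, h1, h2, rfl⟩, by rw [map_smul, h]⟩

theorem cc_pp_Red {K : Set (E m)} (hK : CC K) : ∀ vs : List (E m), CC (pp_Red vs K)
  | [] => hK
  | v :: vs => ((cc_pp_Red hK vs).image (proj v)).add (cc_seg v)

theorem pp_add_Red (K : Set (E m)) (x : E m) : ∀ vs : List (E m), (∀ v ∈ vs, ⟪v, x⟫ = 0) →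
    pp_Red vs (K + seg x) = pp_Red vs K + seg x
  | [], _ => rfl
  | v :: vs, h => by
    have h1 : proj v x = x := by rw [proj_apply, h v (by simp)]; simp
    simp only [pp_Red]
    rw [pp_add_Red K x vs fun w hw => h w (by simp [hw]), image_add, image_seg_Red _ h1,
      add_right_comm]

theorem deltas_pp_Red : ∀ vs : List (E m), (∀ v ∈ vs, ‖v‖ = 1) →
    (vs.Pairwise fun a b => ⟪a, b⟫ = 0) → ∀ K : Set (E m), CC K →
    deltas vs vol K = vol (pp_Red vs K)
  | [], _, _, _, _ => rfl
  | v :: vs, h, hp, K, hK => by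
    rw [List.pairwise_cons] at hp
    have ih := deltas_pp_Red vs (fun w hw => h w (by simp [hw])) hp.2
    have h1 := delta_vol_Red (h v (by simp)) (cc_pp_Red hK vs)
    simp only [deltas, pp_Red]
    rw [← h1]
    simp only [delta]
    rw [ih _ (hK.add (cc_seg v)), ih _ hK,
      pp_add_Red K v vs fun w hw => by rw [real_inner_comm]; exact hp.1 w hw]

theorem interior_pp_Red {K : Set (E m)} (hK : (interior K).Nonempty) :
    ∀ vs : List (E m), (∀ v ∈ vs, ‖v‖ = 1) → (interior (pp_Red vs K)).Nonempty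
  | [], _ => hK
  | v :: vs, h => by
    obtain ⟨o, ho⟩ := interior_pp_Red hK vs fun w hw => h w (by simp [hw])
    rw [mem_interior_iff_mem_nhds, Metric.mem_nhds_iff] at ho
    obtain ⟨ε, hε, hb⟩ := ho
    refine ⟨proj v o, ?_⟩
    rw [mem_interior_iff_mem_nhds, Metric.mem_nhds_iff]
    refine ⟨min ε 1, by positivity, fun z hz => ?_⟩
    rw [mem_ball_iff_norm, lt_min_iff] at hz
    have h1 : |⟪v, z - proj v o⟫| ≤ 1 := by
      have := abs_real_inner_le_norm v (z - proj v o)
      rw [h v (by simp), one_mul] at this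
      linarith [hz.2]
    refine ⟨_, ⟨o + (z - proj v o), hb ?_, rfl⟩, ⟪v, z - proj v o⟫ • v,
      mem_seg.2 ⟨_, (abs_le.1 h1).1, (abs_le.1 h1).2, rfl⟩, ?_⟩
    · rw [mem_ball_iff_norm, add_sub_cancel_left]
      exact hz.1
    · simp only
      rw [map_add, proj_apply v (z - proj v o)]
      abel

theorem image_pp_Red (K : Set (E m)) (T : E m →L[ℝ] E m) (e : E m) (c : ℝ)
    (hT : ∀ x, T x = x - c • ⟪e, x⟫ • e) : ∀ vs : List (E m), (∀ v ∈ vs, ⟪v, e⟫ = 0) →
    pp_Red vs (T '' K) = T '' pp_Red vs K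
  | [], _ => rfl
  | v :: vs, h => by
    have h0 : ⟪v, e⟫ = 0 := h v (by simp)
    have h0' : ⟪e, v⟫ = 0 := by rw [real_inner_comm]; exact h0
    have h1 : T v = v := by rw [hT, h0']; simp
    simp only [pp_Red]
    rw [image_pp_Red K T e c hT vs fun w hw => h w (by simp [hw]), image_add,
      image_seg_Red _ h1, image_image, image_image]
    congr 2
    ext1 x
    simp only [proj_apply, hT, inner_sub_right, inner_smul_right, h0, h0']
    module

theorem exists_pp_Red {K : Set (E m)} {p : E m} (hp : p ∈ K) : ∀ vs : List (E m),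
    (∀ v ∈ vs, ‖v‖ = 1) → (vs.Pairwise fun a b => ⟪a, b⟫ = 0) →
    ∃ p' ∈ pp_Red vs K, (∀ v ∈ vs, ⟪v, p'⟫ = 0) ∧
      ∀ x : E m, (∀ v ∈ vs, ⟪v, x⟫ = 0) → ⟪x, p'⟫ = ⟪x, p⟫
  | [], _, _ => ⟨p, hp, by simp, fun _ _ => rfl⟩
  | v :: vs, h, hq => by
    rw [List.pairwise_cons] at hq
    obtain ⟨p', h1, h2, h3⟩ := exists_pp_Red hp vs (fun w hw => h w (by simp [hw])) hq.2
    have hvv : ⟪v, v⟫ = 1 := by rw [real_inner_self_eq_norm_sq, h v (by simp)]; norm_num
    refine ⟨proj v p', subset_add_seg _ v ⟨p', h1, rfl⟩, fun w hw => ?_, fun x hx => ?_⟩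
    · rw [proj_apply, inner_sub_right, inner_smul_right]
      rcases List.mem_cons.1 hw with rfl | hw
      · rw [hvv]; ring
      · rw [h2 w hw, real_inner_comm v w, hq.1 w hw]; ring
    · rw [proj_apply, inner_sub_right, inner_smul_right, real_inner_comm v x, hx v (by simp),
        h3 x fun w hw => hx w (by simp [hw])]
      ring

theorem of_mem_pp_Red {K : Set (E m)} {x : E m} : ∀ vs : List (E m), (∀ v ∈ vs, ⟪v, x⟫ = 0) →
    ∀ y ∈ pp_Red vs K, ∃ k ∈ K, ⟪x, k⟫ = ⟪x, y⟫
  | [], _, y, hy => ⟨y, hy, rfl⟩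
  | v :: vs, h, _, ⟨_, ⟨y, hy, rfl⟩, z, hz, rfl⟩ => by
    obtain ⟨s, -, -, rfl⟩ := mem_seg.1 hz
    obtain ⟨k, hk, h1⟩ := of_mem_pp_Red vs (fun w hw => h w (by simp [hw])) y hy
    refine ⟨k, hk, ?_⟩
    simp only [proj_apply, inner_add_right, inner_sub_right, inner_smul_right,
      real_inner_comm v x, h v (by simp), h1]
    ring

end aux

theorem sRed (hO : SOne) : SRed := by
  intro m vs K e u hK hi he hvs hp hd p hpK q hqK
  have hn : ∀ v ∈ vs, ‖v‖ = 1 := fun v hv => (hvs v hv).1
  have hve : ∀ v ∈ vs, ⟪v, e⟫ = 0 := fun v hv => (hvs v hv).2.1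
  have hvu : ∀ v ∈ vs, ⟪v, u⟫ = 0 := fun v hv => (hvs v hv).2.2
  have hee : ⟪e, e⟫ = 1 := by rw [real_inner_self_eq_norm_sq, he]; norm_num
  have hone : ∀ x : E m, (∀ v ∈ vs, ⟪v, x⟫ = 0) → ∀ A : Set (E m), CC A →
      deltas (x :: vs) vol A = delta x vol (pp_Red vs A) := by
    intro x hx A hA
    simp only [deltas, delta]
    rw [deltas_pp_Red vs hn hp _ (hA.add (cc_seg x)), deltas_pp_Red vs hn hp _ hA,
      pp_add_Red A x vs hx]
  have hdf : ∀ x : E m, (∀ v ∈ vs, ⟪v, x⟫ = 0) → dfc e (pp_Red vs K) (delta x vol) = 0 := by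
    intro x hx
    have := hd x
    unfold dfc at this ⊢
    rwa [hone x hx _ hK, hone x hx _ (hK.image _), hone x hx _ (hK.image _),
      image_pp_Red K (proj e) e 1 (fun x => by rw [proj_apply, one_smul]) vs hve,
      image_pp_Red K (half e) e (1 / 2) (half_apply e) vs hve] at this
  obtain ⟨p', hp1, hp2, hp3⟩ := exists_pp_Red hpK vs hn hp
  obtain ⟨q', hq1, hq2, hq3⟩ := exists_pp_Red hqK vs hn hp
  have hw : p' + proj e (q' - p') ∈ pp_Red vs K := by
    refine hO m (pp_Red vs K) e (proj e (q' - p')) (cc_pp_Red hK vs) (interior_pp_Red hi vs hn) he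
      ?_ (fun γ s => hdf _ fun v hv => ?_) p' hp1 ⟪e, q' - p'⟫ ?_
    · rw [proj_apply, inner_sub_right, inner_smul_right, hee]; ring
    · simp only [proj_apply, inner_sub_right, inner_smul_right, hve v hv, hp2 v hv, hq2 v hv]
      ring
    · have : p' + proj e (q' - p') + ⟪e, q' - p'⟫ • e = q' := by
        rw [proj_apply]
        abel
      rwa [this]
  obtain ⟨k, hk, h1⟩ := of_mem_pp_Red vs hvu _ hw
  refine ⟨k, hk, ?_⟩
  rw [h1]
  simp only [proj_apply, inner_add_right, inner_sub_right, inner_smul_right, hp3 u hvu, hq3 u hvu,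
    hp3 e hve, hq3 e hve]
  ring

end Pool.Agent.MP_3a8a48_gt.Eqc

end

section
set_option autoImplicit false

namespace Pool.Agent.MP_3a8a48_gt.Eqc

open MeasureTheory Set
open scoped Pointwise RealInnerProductSpace

theorem sFrame : SFrame := by
  classical
  intro m k e u hk
  set U : Submodule ℝ (E m) := Submodule.span ℝ (({e, u} : Finset (E m)) : Set (E m)) with hU
  have h1 : Module.finrank ℝ U ≤ 2 :=
    (finrank_span_finset_le_card ({e, u} : Finset (E m))).trans Finset.card_le_two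
  have h2 := Submodule.finrank_add_finrank_orthogonal U
  rw [finrank_euclideanSpace_fin] at h2
  have h3 : k ≤ Module.finrank ℝ Uᗮ := by omega
  set b := stdOrthonormalBasis ℝ Uᗮ
  have he : e ∈ U := Submodule.subset_span (by simp)
  have hu : u ∈ U := Submodule.subset_span (by simp)
  refine ⟨List.ofFn fun i : Fin k => (b (Fin.castLE h3 i) : E m), List.length_ofFn, ?_, ?_⟩
  · intro v hv
    obtain ⟨i, rfl⟩ := List.mem_ofFn.1 hv
    exact ⟨b.orthonormal.1 _, Submodule.inner_left_of_mem_orthogonal he (b _).2,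
      Submodule.inner_left_of_mem_orthogonal hu (b _).2⟩
  · rw [List.pairwise_ofFn]
    intro i j hij
    exact b.orthonormal.2 fun h => hij.ne (Fin.castLE_injective h3 h)

theorem swap_Box {m : ℕ} (i j : Fin m) (p q : E m) :
    (proj (ee i) q + ⟪ee i, p⟫ • ee i) j = if j = i then p i else q j := by
  rw [proj_apply]
  by_cases h : j = i
  · subst h
    simp [ee, EuclideanSpace.inner_single_left]
  · simp [ee, h]

theorem sBox : SBox := by
  intro m K hK hne h
  have hc : ∀ i : Fin m, Continuous fun x : E m => x i := fun i => by fun_prop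
  choose a ha ha' using fun i => hK.compact.exists_isMinOn hne (hc i).continuousOn
  choose b hb hb' using fun i => hK.compact.exists_isMaxOn hne (hc i).continuousOn
  refine ⟨fun i => a i i, fun i => b i i, Subset.antisymm (fun x hx i => ⟨ha' i hx, hb' i hx⟩) ?_⟩
  intro x hx
  have h1 : ∀ i, ∃ p ∈ K, p i = x i := fun i =>
    hK.convex.isPreconnected.intermediate_value (ha i) (hb i) (hc i).continuousOn (hx i)
  have h2 : ∀ S : Finset (Fin m), ∃ y ∈ K, ∀ i ∈ S, y i = x i := by
    intro S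
    induction S using Finset.induction_on with
    | empty => exact ⟨_, hne.some_mem, by simp⟩
    | insert i S _ ih =>
      obtain ⟨y, hy, hy'⟩ := ih
      obtain ⟨p, hp, hp'⟩ := h1 i
      refine ⟨_, h i p hp y hy, fun j hj => ?_⟩
      rw [swap_Box]
      split_ifs with hji
      · rw [hp', hji]
      · exact hy' j ((Finset.mem_insert.1 hj).resolve_left hji)
  obtain ⟨y, hy, hy'⟩ := h2 Finset.univ
  rwa [← show y = x from PiLp.ext fun i => hy' i (Finset.mem_univ i)]

end Pool.Agent.MP_3a8a48_gt.Eqc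

end

section
set_option autoImplicit false

namespace Pool.Agent.MP_3a8a48_gt.Eqc

open MeasureTheory Set
open scoped Pointwise RealInnerProductSpace

variable {m : ℕ}

theorem ti_Conv (k : ℕ) : TI (av^[k] (vol : Set (E m) → ℝ)) := by
  induction k with
  | zero =>
    intro x K
    show (volume ({x} + K)).toReal = (volume K).toReal
    rw [singleton_add, image_add_left, measure_preimage_add]
  | succ k ih =>
    intro x K
    rw [Function.iterate_succ_apply']
    simp only [av, delta]
    simp only [add_assoc, ih x]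

theorem seg_Conv {c : ℝ} (hc : 0 ≤ c) (v y : E m) :
    y ∈ seg (c • v) ↔ ∃ t : ℝ, |t| ≤ c ∧ t • v = y := by
  rw [mem_seg]
  constructor
  · rintro ⟨s, h1, h2, rfl⟩
    refine ⟨s * c, ?_, mul_smul _ _ _⟩
    rw [abs_mul, abs_of_nonneg hc]
    exact mul_le_of_le_one_left hc (abs_le.2 ⟨h1, h2⟩)
  · rintro ⟨t, h, rfl⟩
    rcases hc.eq_or_lt with rfl | hc
    · exact ⟨0, by norm_num, by norm_num, by simp [abs_nonpos_iff.1 h]⟩
    · refine ⟨t / c, ?_, ?_, by rw [smul_smul, div_mul_cancel₀ _ hc.ne']⟩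
      · rw [le_div_iff₀ hc]
        linarith [(abs_le.1 h).1]
      · rw [div_le_one hc]
        exact (abs_le.1 h).2

theorem zon_Conv {c : Fin m → ℝ} (hc : ∀ i, 0 ≤ c i) (s : Finset (Fin m)) (x : E m) :
    x ∈ ∑ i ∈ s, seg (c i • ee i) ↔ ∀ i, |x i| ≤ if i ∈ s then c i else 0 := by
  have co : ∀ (t : Fin m → ℝ) (j : Fin m),
      (∑ i ∈ s, t i • ee i : E m) j = if j ∈ s then t j else 0 := by
    intro t j
    simp [ee, Finset.sum_apply, Pi.single_apply]
  rw [Set.mem_finsetSum]
  constructor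
  · rintro ⟨g, hg, rfl⟩ j
    have : ∀ i, ∃ t : ℝ, i ∈ s → |t| ≤ c i ∧ t • ee i = g i := fun i => by
      by_cases h : i ∈ s
      · obtain ⟨t, ht⟩ := (seg_Conv (hc i) _ _).1 (hg h)
        exact ⟨t, fun _ => ht⟩
      · exact ⟨0, fun h' => absurd h' h⟩
    choose t ht using this
    rw [← Finset.sum_congr rfl fun i hi => (ht i hi).2, co]
    split_ifs with h
    · exact (ht j h).1
    · simp
  · intro h
    refine ⟨fun i => x i • ee i, fun {i} hi => (seg_Conv (hc i) _ _).2 ⟨x i, ?_, rfl⟩, ?_⟩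
    · simpa [hi] using h i
    · ext j
      rw [co]
      split_ifs with hj
      · rfl
      · have := h j
        rw [if_neg hj] at this
        exact (abs_nonpos_iff.1 this).symm

theorem proj_Conv (i j : Fin m) (x : E m) : proj (ee i) x j = if j = i then 0 else x j := by
  rw [proj_apply]
  by_cases h : j = i <;> simp [ee, EuclideanSpace.inner_single_left, h]

theorem sConv (hZ : SZon) : SConv := by
  intro m n k lo hi hle hf
  have ti := ti_Conv (m := m) k
  generalize av^[k] (vol : Set (E m) → ℝ) = f at hf ti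
  obtain ⟨c, hc⟩ : ∃ c : Fin m → ℝ, ∀ i, c i = (hi i - lo i) / 2 := ⟨_, fun _ => rfl⟩
  have c0 : ∀ i, 0 ≤ c i := fun i => by rw [hc]; linarith [hle i]
  let x₀ : E m := WithLp.toLp 2 fun i => (hi i + lo i) / 2
  obtain ⟨Z, hz⟩ : ∃ Z, Z = ∑ i, seg (c i • ee i : E m) := ⟨_, rfl⟩
  obtain ⟨Y, hy⟩ : ∃ Y : Fin m → Set (E m),
    ∀ i, Y i = ∑ j ∈ Finset.univ.erase i, seg (c j • ee j) := ⟨_, fun _ => rfl⟩
  have cz : CC Z := hz ▸ cc_sum_seg _ _
  have cy : ∀ i, CC (Y i) := fun i => hy i ▸ cc_sum_seg _ _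
  have b1 : Box lo hi = {x₀} + Z := by
    ext x
    rw [singleton_add, image_add_left, mem_preimage, hz, zon_Conv c0]
    refine forall_congr' fun i => ?_
    simp only [Finset.mem_univ, if_true, abs_le, mem_Icc, hc, PiLp.add_apply, PiLp.neg_apply, x₀]
    constructor <;> intro h <;> constructor <;> linarith [h.1, h.2]
  have b2 : ∀ i, proj (ee i) '' Z = Y i := fun i => by
    ext y
    rw [hz, hy, zon_Conv c0]
    constructor
    · rintro ⟨x, hx, rfl⟩ j
      have := (zon_Conv c0 _ _).1 hx j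
      rw [proj_Conv]
      by_cases h : j = i
      · simp [h]
      · simpa [h] using this
    · intro h
      refine ⟨y, (zon_Conv c0 _ _).2 fun j => (h j).trans ?_, ?_⟩
      · split_ifs <;> simp_all
      · ext j
        rw [proj_Conv]
        split_ifs with e
        · have := h j
          simp only [e, Finset.notMem_erase, if_false, abs_nonpos_iff] at this
          rw [e, this]
        · rfl
  have b3 : ∀ i, f (proj (ee i) '' Box lo hi) = f (Y i) := fun i => by
    rw [b1, image_add, image_singleton, b2, ti]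
  have b4 : ∀ i, delta (c i • ee i) f Z = f Z - f (Y i) := fun i => by
    have e : Z = Y i + seg (c i • ee i) := by
      rw [hz, hy, Finset.sum_erase_add _ _ (Finset.mem_univ i)]
    have e2 : seg (c i • ee i : E m) + seg (c i • ee i) = seg ((2 : ℝ) • c i • ee i) := by
      rw [← smul_seg 2, show (2 : ℝ) = 1 + 1 by norm_num,
        (cc_seg _).convex.add_smul zero_le_one zero_le_one, one_smul]
    have := hf.aff _ (cy i) (c i • ee i) 2 zero_le_two
    rw [← e2, ← add_assoc, ← e] at this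
    simp only [delta]
    linarith
  have b5 : (n : ℝ) * f Z ≤ ∑ i, delta (c i • ee i) f Z := by
    have t1 : Filter.Tendsto (fun t : ℝ => (∑ j ∈ Finset.range n, t ^ j) * f Z)
        (nhdsWithin 1 (Iio 1)) (nhds ((∑ j ∈ Finset.range n, (1 : ℝ) ^ j) * f Z)) :=
      (Continuous.tendsto (by fun_prop) 1).mono_left nhdsWithin_le_nhds
    simp only [one_pow, Finset.sum_const, Finset.card_range, nsmul_eq_mul, mul_one] at t1
    refine le_of_tendsto t1 (Filter.mem_of_superset (Ioo_mem_nhdsLT zero_lt_one) fun t ht => ?_)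
    have h1 : 0 < 1 - t := sub_pos.2 ht.2
    have := (hZ m (Fin m) Finset.univ (fun i => c i • ee i) n f hf _ (cz.smul t) _ h1.le).2
    rw [← hz, ← cz.convex.add_smul ht.1.le h1.le, add_sub_cancel, one_smul, hf.hom _ cz t ht.1,
      zpow_natCast] at this
    refine le_of_mul_le_mul_left ?_ h1
    rw [← mul_assoc, mul_neg_geom_sum]
    linarith
  refine le_antisymm ?_ ?_
  · have := hf.main (EuclideanSpace.basisFun (Fin m) ℝ)
      (b1 ▸ (⟨isCompact_singleton, convex_singleton _⟩ : CC {x₀}).add cz : CC (Box lo hi))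
    simpa only [Fintype.card_fin, EuclideanSpace.basisFun_apply, ee] using this
  · simp only [b4, Finset.sum_sub_distrib, Finset.sum_const, Finset.card_univ, Fintype.card_fin,
      nsmul_eq_mul] at b5
    simp only [b3]
    rw [b1, ti]
    linarith

end Pool.Agent.MP_3a8a48_gt.Eqc

end

section
set_option autoImplicit false

namespace Pool.Agent.MP_3a8a48_gt.Eqc

open MeasureTheory Set
open scoped Pointwise RealInnerProductSpace

/-- Volume of the unit ball. -/
noncomputable def om (k : ℕ) : ℝ :=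
  (volume (Metric.ball (0 : EuclideanSpace ℝ (Fin k)) 1)).toReal

theorem om_pos (k : ℕ) : 0 < om k :=
  ENNReal.toReal_pos (Metric.measure_ball_pos _ _ one_pos).ne' measure_ball_lt_top.ne

theorem good_iter (hA : SAv) {m : ℕ} {d : ℤ} {f : Set (E m) → ℝ} (hf : Good d f) (k : ℕ) :
    Good (d - k) (av^[k] f) := by
  induction k with
  | zero => simpa using hf
  | succ k ih =>
    rw [Function.iterate_succ_apply']
    have := (hA m _ _ ih).2.2.2
    rwa [show d - (k : ℤ) - 1 = d - ((k + 1 : ℕ) : ℤ) by push_cast; ring] at this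

theorem norm_ee {m : ℕ} (i : Fin m) : ‖ee i‖ = 1 := by simp [ee]

theorem fin_main (hA : SAv) (hSt : SSt) (hS : SStrict) (hH : SHalf) (hF : SFrame) (hR : SRed)
    (hB : SBox) (hC : SConv) (m : ℕ) (hm : 2 ≤ m) :
    ∃ V : ℕ → Set (E m) → ℝ,
      (∀ K : Set (E m), IsCompact K → Convex ℝ K → K.Nonempty → ∀ t : ℝ, 0 ≤ t →
        (volume (Metric.cthickening t K)).toReal =
          ∑ j ∈ Finset.range (m + 1), om (m - j) * V j K * t ^ (m - j)) ∧
      ∀ n : ℕ, 1 ≤ n → n < m → ∀ K : Set (E m), IsCompact K → Convex ℝ K →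
        (interior K).Nonempty →
        (((m : ℝ) - n) * V n K = ∑ i, V n (proj (ee i) '' K) ↔ ∃ lo hi, K = Box lo hi) := by
  obtain ⟨c, hc, hst⟩ := hSt m (by omega)
  have hv : Good (m : ℤ) (vol : Set (E m) → ℝ) := by simpa using good_vol (E := E m)
  have hpos : ∀ k : ℕ, 0 < (k.factorial : ℝ) * c ^ k * om k := fun k =>
    mul_pos (by positivity) (om_pos k)
  refine ⟨fun j K => av^[m - j] vol K / (((m - j).factorial : ℝ) * c ^ (m - j) * om (m - j)),
    fun K h1 h2 _ t ht => ?_, fun n hn hnm K h1 h2 h3 => ?_⟩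
  · have e1 := hst (m + 1) vol (by simpa using hv) K ⟨h1, h2⟩ (t / c) (by positivity)
    rw [smul_closedBall _ _ hc.le, smul_zero, Real.norm_of_nonneg (by positivity),
      div_mul_cancel₀ _ hc.ne', h1.add_closedBall_zero ht] at e1
    refine e1.trans ?_
    rw [← Finset.sum_range_reflect]
    refine Finset.sum_congr rfl fun j _ => ?_
    rw [Nat.add_sub_cancel, div_pow]
    have := (om_pos (m - j)).ne'
    have : ((m - j).factorial : ℝ) ≠ 0 := by positivity
    field_simp
  have hK : CC K := ⟨h1, h2⟩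
  have hg : Good n (av^[m - n] (vol : Set (E m) → ℝ)) := by
    have := good_iter hA hv (m - n)
    rwa [Nat.cast_sub hnm.le, sub_sub_cancel] at this
  simp only
  rw [← Finset.sum_div, ← mul_div_assoc, div_left_inj' (hpos _).ne']
  constructor
  · intro heq
    refine hB m K hK (h3.mono interior_subset) fun i p hp q hq => ?_
    by_contra hn'
    obtain ⟨φ, r, hφ1, hφ2⟩ := geometric_hahn_banach_closed_point h2 h1.isClosed hn'
    set u := (InnerProductSpace.toDual ℝ (E m)).symm φ with hu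
    have hφ : ∀ x, φ x = ⟪u, x⟫ := fun x => by rw [hu, InnerProductSpace.toDual_symm_apply]
    obtain ⟨vs, hlen, hvs, hpw⟩ := hF m (m - n - 1) (ee i) u (by omega)
    obtain ⟨k, hk, hku⟩ := hR m vs K (ee i) u hK h3 (norm_ee i) hvs hpw
      (fun x => hS m (m - n) _ vol (ee i) K hv hK (hH m n _ K hg hK heq i) (x :: vs)
        (by rw [List.length_cons, hlen]; omega)) p hp q hq
    have := hφ1 k hk
    rw [hφ, hku, ← hφ] at this
    linarith
  · rintro ⟨lo, hi, rfl⟩
    obtain ⟨x, hx⟩ := h3.mono interior_subset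
    exact hC m n (m - n) lo hi (fun i => (hx i).1.trans (hx i).2) hg

theorem proj_ee {m : ℕ} (i : Fin m) : (proj (ee i) : E m → E m) = fun x =>
    x - (inner ℝ x (EuclideanSpace.single i (1 : ℝ))) • EuclideanSpace.single i (1 : ℝ) := by
  funext x
  rw [proj_apply, real_inner_comm]
  rfl

end Pool.Agent.MP_3a8a48_gt.Eqc

end

namespace Pool.Agent.MP_3a8a48_gt.Eqc

open MeasureTheory Set

theorem main (m : ℕ) (hm : 2 ≤ m) :
    ∃ V : ℕ → Set (E m) → ℝ,
      (∀ K : Set (E m), IsCompact K → Convex ℝ K → K.Nonempty → ∀ t : ℝ, 0 ≤ t →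
        (volume (Metric.cthickening t K)).toReal =
          ∑ j ∈ Finset.range (m + 1), om (m - j) * V j K * t ^ (m - j)) ∧
      ∀ n : ℕ, 1 ≤ n → n < m → ∀ K : Set (E m), IsCompact K → Convex ℝ K →
        (interior K).Nonempty →
        (((m : ℝ) - (n : ℝ)) * V n K = ∑ i : Fin m, V n ((fun x : E m =>
            x - (inner ℝ x (EuclideanSpace.single i (1 : ℝ))) •
              EuclideanSpace.single i (1 : ℝ)) '' K) ↔
          ∃ lo hi : Fin m → ℝ, K = {x | ∀ i, x i ∈ Set.Icc (lo i) (hi i)}) := by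
  obtain ⟨V, h1, h2⟩ := fin_main sAv (sSt sAv sZon sApx) (sStrict sAv) sHalf sFrame (sRed sOne)
    sBox (sConv sZon) m hm
  refine ⟨V, h1, fun n hn hnm K k1 k2 k3 => ?_⟩
  have := h2 n hn hnm K k1 k2 k3
  simp only [proj_ee] at this
  exact this

end Pool.Agent.MP_3a8a48_gt.Eqc
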