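import Pool.Agent.Mg.S13033.Gd31b96

/-! The equality case: definitions and statements of the steps. -/

set_option autoImplicit false

namespace Pool.Agent.MP_3a8a48_gt.Eqc

open MeasureTheory Set
open scoped Pointwise RealInnerProductSpace

/-- Euclidean space. -/
abbrev E (m : ℕ) : Type := EuclideanSpace ℝ (Fin m)

section defs

variable {m : ℕ}

/-- The difference operator averaged over the unit ball. -/
noncomputable def av (f : Set (E m) → ℝ) : Set (E m) → ℝ :=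
  fun K => ∫ x in Metric.closedBall (0 : E m) 1, delta x f K

/-- Iterated differences. -/
noncomputable def deltas : List (E m) → (Set (E m) → ℝ) → Set (E m) → ℝ
  | [], f => f
  | v :: vs, f => delta v (deltas vs f)

/-- Halves the component along `e`. -/
noncomputable def half (e : E m) : E m →L[ℝ] E m :=
  ContinuousLinearMap.id ℝ (E m) - (1 / 2 : ℝ) • (innerSL ℝ e).smulRight e

theorem half_apply (e x : E m) : half e x = x - (1 / 2 : ℝ) • ⟪e, x⟫ • e := by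
  simp [half]

/-- The convexity deficit in the direction `e`. -/
noncomputable def dfc (e : E m) (K : Set (E m)) (f : Set (E m) → ℝ) : ℝ :=
  f K + f (proj e '' K) - 2 * f (half e '' K)

theorem shadow_half (e : E m) (K : Set (E m)) :
    Shadow e (1 / 2) (half e '' K) K (proj e '' K) := by
  rintro _ ⟨x, hx, rfl⟩
  refine ⟨1 / 2 * ⟪e, x⟫, -(1 / 2 * ⟪e, x⟫), ?_, ⟨x, hx, ?_⟩, by ring⟩
  · have : half e x + (1 / 2 * ⟪e, x⟫) • e = x := by
      rw [half_apply]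
      module
    rwa [this]
  · rw [half_apply, proj_apply]
    module

theorem dfc_nonneg {d : ℤ} {f : Set (E m) → ℝ} (hf : Good d f) {K : Set (E m)} (hK : CC K)
    (e : E m) : 0 ≤ dfc e K f := by
  have := hf.shadow e (1 / 2) (by norm_num) (by norm_num) _ _ _ (hK.image _) hK (hK.image _)
    (shadow_half e K)
  unfold dfc
  linarith

/-- The standard basis. -/
noncomputable def ee (i : Fin m) : E m := EuclideanSpace.single i 1

/-- Coordinate boxes. -/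
def Box (lo hi : Fin m → ℝ) : Set (E m) := {x | ∀ i, x i ∈ Icc (lo i) (hi i)}

/-- Translation invariance. -/
def TI (f : Set (E m) → ℝ) : Prop := ∀ (x : E m) (K : Set (E m)), f ({x} + K) = f K

end defs

/-- The difference as a function of the direction, and the averaged operator. -/
def SAv : Prop :=
  ∀ (m : ℕ) (d : ℤ) (f : Set (E m) → ℝ), Good d f →
    (∀ K, CC K → ∀ (s : ℝ) (x : E m), 0 ≤ s → delta (s • x) f K = s * delta x f K) ∧
    (∀ K, CC K → ∀ x y : E m,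
      |delta x f K - delta y f K| ≤ ‖x - y‖ * f (K + Metric.closedBall 0 1)) ∧
    (∀ K, CC K → Continuous fun x : E m => delta x f K) ∧ Good (d - 1) (av f)

/-- First order bounds for adding a zonotope. -/
def SZon : Prop :=
  ∀ (m : ℕ) (ι : Type) (s : Finset ι) (w : ι → E m) (d : ℤ) (f : Set (E m) → ℝ), Good d f →
    ∀ L, CC L → ∀ h : ℝ, 0 ≤ h →
      f L + h * ∑ i ∈ s, delta (w i) f L ≤ f (L + h • ∑ i ∈ s, seg (w i)) ∧
      f (L + h • ∑ i ∈ s, seg (w i)) ≤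
        f L + h * ∑ i ∈ s, delta (w i) f (L + h • ∑ i ∈ s, seg (w i))

/-- Zonotopes whose generators approximate the uniform measure on the ball. -/
def SApx : Prop :=
  ∀ m : ℕ, 0 < m → ∃ c : ℝ, 0 < c ∧ ∀ ε : ℝ, 0 < ε → ∃ (s : Finset (E m)) (w : E m → E m),
    Metric.closedBall 0 (c * (1 - ε)) ⊆ ∑ i ∈ s, seg (w i) ∧
    ∑ i ∈ s, seg (w i) ⊆ Metric.closedBall 0 (c * (1 + ε)) ∧
    ∀ (N : E m → ℝ) (Λ : ℝ), 0 ≤ Λ → (∀ (r : ℝ) (x : E m), 0 ≤ r → N (r • x) = r * N x) →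
      (∀ x y, |N x - N y| ≤ ‖x - y‖ * Λ) →
      |∑ i ∈ s, N (w i) - ∫ x in Metric.closedBall (0 : E m) 1, N x| ≤ ε * Λ

/-- The Steiner formula with the averaged operator. -/
def SSt : Prop :=
  ∀ m : ℕ, 0 < m → ∃ c : ℝ, 0 < c ∧ ∀ (d : ℕ) (f : Set (E m) → ℝ), Good ((d : ℤ) - 1) f →
    ∀ K, CC K → ∀ t : ℝ, 0 ≤ t → f (K + t • Metric.closedBall (0 : E m) c) =
      ∑ k ∈ Finset.range d, av^[k] f K / (k.factorial : ℝ) * t ^ k

/-- A vanishing averaged deficit vanishes in every direction. -/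
def SStrict : Prop :=
  ∀ (m k : ℕ) (d : ℤ) (f : Set (E m) → ℝ) (e : E m) (K : Set (E m)), Good d f → CC K →
    dfc e K (av^[k] f) = 0 → ∀ vs : List (E m), vs.length = k → dfc e K (deltas vs f) = 0

/-- Equality forces all deficits to vanish. -/
def SHalf : Prop :=
  ∀ (m n : ℕ) (f : Set (E m) → ℝ) (K : Set (E m)), Good n f → CC K →
    ((m : ℝ) - n) * f K = ∑ i, f (proj (ee i) '' K) → ∀ i, dfc (ee i) K f = 0

/-- The case of one difference. -/
def SOne : Prop :=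
  ∀ (m : ℕ) (L : Set (E m)) (e w : E m), CC L → (interior L).Nonempty → ‖e‖ = 1 → ⟪e, w⟫ = 0 →
    (∀ γ s : ℝ, dfc e L (delta (γ • e - s • w) vol) = 0) →
    ∀ p ∈ L, ∀ r : ℝ, p + w + r • e ∈ L → p + w ∈ L

/-- Orthonormal lists orthogonal to two vectors. -/
def SFrame : Prop :=
  ∀ (m k : ℕ) (e u : E m), k + 2 ≤ m → ∃ vs : List (E m), vs.length = k ∧
    (∀ v ∈ vs, ‖v‖ = 1 ∧ ⟪v, e⟫ = 0 ∧ ⟪v, u⟫ = 0) ∧ vs.Pairwise fun a b => ⟪a, b⟫ = 0

/-- Reduction to one difference. -/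
def SRed : Prop :=
  ∀ (m : ℕ) (vs : List (E m)) (K : Set (E m)) (e u : E m), CC K → (interior K).Nonempty →
    ‖e‖ = 1 → (∀ v ∈ vs, ‖v‖ = 1 ∧ ⟪v, e⟫ = 0 ∧ ⟪v, u⟫ = 0) →
    (vs.Pairwise fun a b => ⟪a, b⟫ = 0) → (∀ x, dfc e K (deltas (x :: vs) vol) = 0) →
    ∀ p ∈ K, ∀ q ∈ K, ∃ k ∈ K, ⟪u, k⟫ = ⟪u, proj e q + ⟪e, p⟫ • e⟫

/-- A set that is a cylinder in every coordinate direction is a box. -/
def SBox : Prop :=
  ∀ (m : ℕ) (K : Set (E m)), CC K → K.Nonempty →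
    (∀ i, ∀ p ∈ K, ∀ q ∈ K, proj (ee i) q + ⟪ee i, p⟫ • ee i ∈ K) → ∃ lo hi, K = Box lo hi

/-- Boxes give equality. -/
def SConv : Prop :=
  ∀ (m n k : ℕ) (lo hi : Fin m → ℝ), (∀ i, lo i ≤ hi i) → Good n (av^[k] (vol : Set (E m) → ℝ)) →
    ((m : ℝ) - n) * av^[k] vol (Box lo hi) = ∑ i, av^[k] vol (proj (ee i) '' Box lo hi)

end Pool.Agent.MP_3a8a48_gt.Eqc
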